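import Mathlib

/-!
# Low degree polynomials over `F_p` with range sum `k p`

For every `k ≥ 2` and every prime `p ≥ max 7 (k + 3)` the polynomial
`P = x^((p-1)/2) + (x+1)^((p-1)/2) + k` has range sum `k p`, degree `(p-1)/2`, and is not of the
form `c ((a x + b)^((p-1)/2) + 1) + d`.

The value of `P` at `x`, read as an integer, is `k + χ(x) + χ(x+1)` with `χ` the quadratic
character. The coefficients of `x^n, x^(n-1), x^(n-2)`, `n = (p-1)/2`, show that `P` is not of the
form above.
-/

set_option autoImplicit false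

open Polynomial

namespace Pool.Agent.Results.MP_1e20d6_nt.SumOfTwoTranslates

/-- The range sum of a polynomial `P` over `F_p`: the sum over all `x` of the representative of
`P(x)` in `{0, 1, ..., p-1}`, taken in the integers. -/
def rangeSum (p : ℕ) [Fact p.Prime] (P : (ZMod p)[X]) : ℕ :=
  ∑ x : ZMod p, (P.eval x).val

/-- The counterexample. -/
noncomputable def poly (p k : ℕ) : (ZMod p)[X] :=
  X ^ ((p - 1) / 2) + (X + C 1) ^ ((p - 1) / 2) + C (k : ZMod p)

theorem half_eq {p : ℕ} (hp : Odd p) : (p - 1) / 2 = p / 2 := by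
  obtain ⟨m, rfl⟩ := hp
  omega

theorem eval_poly_val (p k : ℕ) [Fact p.Prime] (hp : 3 ≤ p) (hk : 2 ≤ k) (hpk : k + 3 ≤ p)
    (x : ZMod p) :
    (((poly p k).eval x).val : ℤ) =
      k + quadraticChar (ZMod p) x + quadraticChar (ZMod p) (x + 1) := by
  have hodd : Odd p := (Fact.out : p.Prime).odd_of_ne_two (by omega)
  have hch : ringChar (ZMod p) ≠ 2 := by
    rw [ZMod.ringChar_zmod_n]
    omega
  have h1 := quadraticChar_eq_pow_of_char_ne_two' hch x
  have h2 := quadraticChar_eq_pow_of_char_ne_two' hch (x + 1)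
  rw [ZMod.card] at h1 h2
  have b1 : ∀ y : ZMod p, -1 ≤ quadraticChar (ZMod p) y ∧ quadraticChar (ZMod p) y ≤ 1 := by
    intro y
    by_cases hy : y = 0
    · subst hy
      simp
    · rcases quadraticChar_dichotomy hy with h | h <;> rw [h] <;> norm_num
  obtain ⟨l1, u1⟩ := b1 x
  obtain ⟨l2, u2⟩ := b1 (x + 1)
  have hev : (poly p k).eval x =
      ((k + quadraticChar (ZMod p) x + quadraticChar (ZMod p) (x + 1) : ℤ) : ZMod p) := by
    rw [poly, half_eq hodd]
    push_cast
    rw [h1, h2]
    simp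
    ring
  rw [hev, ZMod.val_intCast]
  apply Int.emod_eq_of_lt
  · have : (2 : ℤ) ≤ k := by exact_mod_cast hk
    linarith
  · have : (k : ℤ) + 3 ≤ p := by exact_mod_cast hpk
    linarith

theorem rangeSum_poly (p k : ℕ) [Fact p.Prime] (hp : 3 ≤ p) (hk : 2 ≤ k) (hpk : k + 3 ≤ p) :
    rangeSum p (poly p k) = k * p := by
  have hch : ringChar (ZMod p) ≠ 2 := by
    rw [ZMod.ringChar_zmod_n]
    omega
  have h : ((rangeSum p (poly p k) : ℕ) : ℤ) = ((k * p : ℕ) : ℤ) := by
    unfold rangeSum
    push_cast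
    rw [Finset.sum_congr rfl (fun x _ => eval_poly_val p k hp hk hpk x)]
    rw [Finset.sum_add_distrib, Finset.sum_add_distrib]
    have s1 : ∑ x : ZMod p, quadraticChar (ZMod p) x = 0 := quadraticChar_sum_zero hch
    have s2 : ∑ x : ZMod p, quadraticChar (ZMod p) (x + 1) = 0 := by
      rw [← s1]
      exact Equiv.sum_comp (Equiv.addRight (1 : ZMod p)) (fun x => quadraticChar (ZMod p) x)
    rw [s1, s2]
    simp [ZMod.card, mul_comm]
  exact_mod_cast h

theorem natDegree_poly_le (p k : ℕ) [Fact p.Prime] : (poly p k).natDegree ≤ (p - 1) / 2 := by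
  unfold poly
  have h : ((X + C 1 : (ZMod p)[X]) ^ ((p - 1) / 2)).natDegree ≤ (p - 1) / 2 := by
    refine natDegree_pow_le.trans ?_
    rw [natDegree_X_add_C, mul_one]
  refine (natDegree_add_le _ _).trans (max_le ((natDegree_add_le _ _).trans (max_le ?_ h)) ?_)
  · rw [natDegree_X_pow]
  · rw [natDegree_C]
    exact Nat.zero_le _

theorem natDegree_poly (p k : ℕ) [Fact p.Prime] (hp : 3 ≤ p) :
    (poly p k).natDegree = (p - 1) / 2 := by
  refine le_antisymm (natDegree_poly_le p k) (le_natDegree_of_ne_zero ?_)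
  have hn : (p - 1) / 2 ≠ 0 := by omega
  unfold poly
  rw [coeff_add, coeff_add, coeff_X_pow, if_pos rfl, coeff_X_add_C_pow, coeff_C, if_neg hn,
    Nat.sub_self, pow_zero, Nat.choose_self, Nat.cast_one, mul_one, add_zero, one_add_one_eq_two]
  intro h
  have h2 : ((2 : ℕ) : ZMod p) = 0 := by exact_mod_cast h
  have := Nat.le_of_dvd (by norm_num) ((ZMod.natCast_eq_zero_iff 2 p).mp h2)
  omega

theorem coeff_linear_pow {R : Type*} [CommRing R] (a b : R) (n m : ℕ) :
    ((C a * X + C b : R[X]) ^ n).coeff m = a ^ m * b ^ (n - m) * (n.choose m : R) := by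
  have h : (C a * X + C b : R[X]) ^ n = ((X + C b) ^ n).comp (C a * X) := by
    simp
  rw [h, comp_C_mul_X_coeff, coeff_X_add_C_pow]
  ring

theorem not_form (p k : ℕ) [Fact p.Prime] (hp7 : 7 ≤ p) (a b c d : ZMod p) :
    poly p k ≠ C c * ((C a * X + C b) ^ ((p - 1) / 2) + 1) + C d := by
  intro h
  have hprime : p.Prime := Fact.out
  have hn : 3 ≤ (p - 1) / 2 := by omega
  have hnp : (p - 1) / 2 < p := by omega
  unfold poly at h
  generalize (p - 1) / 2 = n at *
  -- the coefficient of `X ^ m` on both sides for `1 ≤ m`, `m ≤ n`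
  have hco : ∀ m : ℕ, 1 ≤ m → m ≤ n →
      (if m = n then 1 else 0) + (n.choose m : ZMod p) =
        c * (a ^ m * b ^ (n - m) * (n.choose m : ZMod p)) := by
    intro m hm hmn
    have h1 := congrArg (fun Q : (ZMod p)[X] => Q.coeff m) h
    have hm0 : m ≠ 0 := by omega
    simp only [coeff_add, coeff_C_mul, coeff_X_pow, coeff_X_add_C_pow, coeff_C, if_neg hm0,
      coeff_one, coeff_linear_pow a b n m, one_pow, one_mul, add_zero] at h1
    exact h1
  have c0 := hco n (by omega) le_rfl
  have c1 := hco (n - 1) (by omega) (by omega)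
  have c2 := hco (n - 2) (by omega) (by omega)
  rw [if_pos rfl, Nat.choose_self, Nat.sub_self, pow_zero] at c0
  rw [if_neg (by omega), Nat.choose_symm (show 1 ≤ n by omega), Nat.choose_one_right,
    show n - (n - 1) = 1 by omega, pow_one, zero_add] at c1
  rw [if_neg (by omega), Nat.choose_symm (show 2 ≤ n by omega),
    show n - (n - 2) = 2 by omega, zero_add] at c2
  have hn0 : (n : ZMod p) ≠ 0 := by
    intro h0
    have := (ZMod.natCast_eq_zero_iff n p).mp h0
    have := Nat.le_of_dvd (by omega) this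
    omega
  have hch0 : (n.choose 2 : ZMod p) ≠ 0 := by
    intro h0
    have h1 := (ZMod.natCast_eq_zero_iff _ p).mp h0
    have h3 : p ∣ n.factorial := by
      rw [← Nat.choose_mul_factorial_mul_factorial (show 2 ≤ n by omega)]
      exact (h1.mul_right _).mul_right _
    have := hprime.dvd_factorial.mp h3
    omega
  have d1 : c * (a ^ (n - 1) * b) = 1 := by
    apply mul_right_cancel₀ hn0
    linear_combination -c1
  have d2 : c * (a ^ (n - 2) * b ^ 2) = 1 := by
    apply mul_right_cancel₀ hch0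
    linear_combination -c2
  obtain ⟨m, rfl⟩ : ∃ m, n = m + 2 := ⟨n - 2, by omega⟩
  rw [show m + 2 - 1 = m + 1 by omega] at d1
  rw [show m + 2 - 2 = m by omega] at d2
  have d0 : c * a ^ (m + 2) = 2 := by linear_combination -c0
  have key : (1 : ZMod p) * 2 = 1 * 1 := by
    calc (1 : ZMod p) * 2 = (c * (a ^ m * b ^ 2)) * (c * a ^ (m + 2)) := by rw [d2, d0]
      _ = (c * (a ^ (m + 1) * b)) * (c * (a ^ (m + 1) * b)) := by ring
      _ = 1 * 1 := by rw [d1]
  exact one_ne_zero (by linear_combination key : (1 : ZMod p) = 0)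

/-- **For every `k ≥ 2` and every prime `p ≥ max 7 (k + 3)` there is a polynomial over `F_p` with
range sum `k p`, of degree `(p-1)/2`, and not of the form
`c ((a x + b)^((p-1)/2) + 1) + d`.** -/
theorem result (k : ℕ) (hk : 2 ≤ k) (p : ℕ) [Fact p.Prime] (hp7 : 7 ≤ p) (hpk : k + 3 ≤ p) :
    ∃ P : (ZMod p)[X], rangeSum p P = k * p ∧ P.natDegree = (p - 1) / 2 ∧
      ∀ a b c d : ZMod p, P ≠ C c * ((C a * X + C b) ^ ((p - 1) / 2) + 1) + C d :=
  ⟨poly p k, rangeSum_poly p k (by omega) hk hpk, natDegree_poly p k (by omega),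
    fun a b c d => not_form p k hp7 a b c d⟩

end Pool.Agent.Results.MP_1e20d6_nt.SumOfTwoTranslates
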